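import Pool.Agent.MP_ea150c_mp.H50.V0a

/-! Normal form of the representing cocycles and trivial deformations. -/

namespace Pool.Agent.MP_ea150c_mp.H50

open Pool.Agent.MP_ea150c_mp.H49

set_option linter.unusedSectionVars false

noncomputable section

section Gen
variable {O I ι A : Type} [CommRing O] [Fintype I] [DecidableEq I] [Fintype ι] [DecidableEq ι]
  [CommRing A] [Algebra O A] (P : ι → I → I → Prop) (f : ι → A) (ab : I → I → A)

open Classical in
/-- the general coefficient -/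
def ag (m : ι → O) (s : I → I → O) (i : ι) : A :=
  m i • f i + ∑ u, ∑ v, if P i u v then s u v • ab u v else 0

/-- the general cochain -/
def xg (c : Finset I → A) (x : O) (m : ι → O) (s : I → I → O) : Finset I → PS ι A := fun J =>
  c J • (Pi.single 0 (algebraMap O A x) + ∑ i, Pi.single (Pi.single i 1) (ag P f ab m s i))

theorem ag_add (m m' : ι → O) (s s' : I → I → O) (i : ι) :
    ag P f ab (m + m') (s + s') i = ag P f ab m s i + ag P f ab m' s' i := by
  simp only [ag, Pi.add_apply, add_smul, ite_add_zero, Finset.sum_add_distrib]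
  abel

theorem ag_smul (r : O) (m : ι → O) (s : I → I → O) (i : ι) :
    ag P f ab (r • m) (r • s) i = r • ag P f ab m s i := by
  simp only [ag, Pi.smul_apply, smul_add, Finset.smul_sum, smul_ite, smul_zero, smul_assoc]

theorem xg_add (c : Finset I → A) (x x' : O) (m m' : ι → O) (s s' : I → I → O) :
    xg P f ab c (x + x') (m + m') (s + s') = xg P f ab c x m s + xg P f ab c x' m' s' := by
  funext J
  simp only [xg, ag_add, map_add, Pi.single_add, Finset.sum_add_distrib, smul_add, Pi.add_apply]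
  abel

theorem xg_smul (c : Finset I → A) (r x : O) (m : ι → O) (s : I → I → O) :
    xg P f ab c (r * x) (r • m) (r • s) = r • xg P f ab c x m s := by
  funext J
  simp only [xg, ag_smul, map_mul, ← Algebra.smul_def, Pi.single_smul, ← Finset.smul_sum,
    ← smul_add, Pi.smul_apply]
  exact smul_comm _ _ _

theorem nf_gen (c : Finset I → A) (hP : ∀ i i' u v, P i u v → P i' u v → i = i') :
    ∀ z ∈ Submodule.span O ({fun J => (Pi.single 0 (1 * c J) : PS ι A)} ∪
      {z | ∃ i, ∃ a ∈ Submodule.span O ({f i} ∪ {a | ∃ u v, P i u v ∧ a = ab u v}),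
        z = fun J => (Pi.single (Pi.single i 1) (a * c J) : PS ι A)}),
      ∃ (x : O) (m : ι → O) (s : I → I → O), z = xg P f ab c x m s := by
  let N : Submodule O (Finset I → PS ι A) :=
    { carrier := {z | ∃ (x : O) (m : ι → O) (s : I → I → O), z = xg P f ab c x m s}
      zero_mem' := ⟨0 * 0, (0 : O) • 0, (0 : O) • 0, by rw [xg_smul, zero_smul]⟩
      add_mem' := fun ⟨x, m, s, e⟩ ⟨x', m', s', e'⟩ =>
        ⟨x + x', m + m', s + s', by rw [xg_add, e, e']⟩
      smul_mem' := fun r _ ⟨x, m, s, e⟩ => ⟨r * x, r • m, r • s, by rw [xg_smul, e]⟩ }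
  have k : ∀ (i : ι) (a : A) (m : ι → O) (s : I → I → O),
      (∀ i', ag P f ab m s i' = (Pi.single i a : ι → A) i') →
      (fun J => (Pi.single (Pi.single i 1) (a * c J) : PS ι A)) ∈ N := by
    refine fun i a m s e => ⟨0, m, s, funext fun J => ?_⟩
    simp only [xg, e, map_zero, Pi.single_zero, zero_add]
    rw [Finset.sum_eq_single i (fun b _ hb => by simp [Pi.single_eq_of_ne hb]) (by simp),
      Pi.single_eq_same, ← Pi.single_smul, smul_eq_mul, mul_comm]
  intro z hz
  refine (Submodule.span_le.2 ?_ : _ ≤ N) hz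
  rintro _ (rfl | ⟨i, a, ha, rfl⟩)
  · refine ⟨1, 0, 0, funext fun J => ?_⟩
    simp [xg, ag, ← Pi.single_smul]
  · induction ha using Submodule.span_induction with
    | mem a ha =>
      rcases ha with rfl | ⟨u, v, huv, rfl⟩
      · refine k i _ (Pi.single i 1) 0 fun i' => ?_
        by_cases e : i' = i
        · subst e
          simp [ag]
        · simp [ag, Pi.single_eq_of_ne e]
      · refine k i _ 0 (Pi.single u (Pi.single v 1)) fun i' => ?_
        rw [ag, Finset.sum_eq_single u (fun b _ hb => by simp [Pi.single_eq_of_ne hb]) (by simp),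
          Finset.sum_eq_single v (fun b _ hb => by simp [Pi.single_eq_of_ne hb]) (by simp)]
        by_cases e : i' = i
        · subst e
          simp [huv]
        · have : ¬ P i' u v := fun h => e (hP _ _ _ _ h huv)
          simp [this, Pi.single_eq_of_ne e]
    | zero =>
      simp only [zero_mul, Pi.single_zero]
      exact N.zero_mem
    | add a b _ _ ha hb =>
      simp only [add_mul, Pi.single_add]
      exact N.add_mem ha hb
    | smul r a _ ha =>
      simp only [smul_mul_assoc, Pi.single_smul]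
      exact N.smul_mem r ha

theorem fin_gen (c : Finset I → A) (q x : O) (m e : ι → O) (s s' t : I → I → O) (η : ι → A)
    (hη : ∀ i, η i - e i • f i = ag P f ab 0 s' i)
    (ht : ∀ i u v, P i u v → s u v - s' u v = q * t u v) (J : Finset I) (y : A) :
    xg P f ab c x m s J - (Pi.single 0 y +
      ∑ i, Pi.single (Pi.single i 1) (c J * (η i + (m i - e i) • f i))) =
      Pi.single 0 (x • c J - y) +
        q • ∑ i, (Pi.single (Pi.single i 1) (c J * ag P f ab 0 t i) : PS ι A) := by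
  have k : ∀ i, ag P f ab m s i = (η i + (m i - e i) • f i) + q • ag P f ab 0 t i := by
    intro i
    rw [sub_smul, ← add_sub_assoc, add_sub_right_comm, hη, add_right_comm, ← ag_smul, ← ag_add]
    simp only [ag, smul_zero, add_zero, Pi.zero_apply, zero_smul, zero_add]
    rw [add_comm]
    congr 1
    refine Finset.sum_congr rfl fun u _ => Finset.sum_congr rfl fun v _ => ?_
    split_ifs with h
    · rw [Pi.add_apply, Pi.add_apply, Pi.smul_apply, Pi.smul_apply, smul_eq_mul, ← ht i u v h,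
        add_sub_cancel]
    · rfl
  simp only [xg, k, smul_add (c J), Finset.smul_sum, ← Pi.single_smul, smul_eq_mul, mul_add (c J),
    Pi.single_add, Finset.sum_add_distrib, Pi.single_sub, mul_smul_comm, Algebra.smul_def x,
    mul_comm (algebraMap O A x)]
  abel

end Gen

section Main
variable {I E : Type} [LinearOrder I] [Fintype I] [Fintype E] [DecidableEq E] (G : PG I E)

theorem pair_e (e : E) (u v : I) : G.Pair (Sum.inr (Sum.inl e)) u v ↔
    (G.src e = some u ∧ G.tgt e = some v) ∨ (G.src e = some v ∧ G.tgt e = some u) := by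
  constructor
  · rintro (⟨_, a, -⟩ | ⟨e', a, b⟩)
    · exact absurd a (by simp)
    · obtain rfl : e = e' := Sum.inl.inj (Sum.inr.inj a)
      exact b
  · exact fun b => Or.inr ⟨e, rfl, b⟩

theorem pair_q (w : {v : I // v ∈ Finset.univ}) (u v : I) :
    G.Pair (Sum.inl w) u v ↔ u = w.1 ∧ v = w.1 := by
  constructor
  · rintro (⟨_, a, rfl⟩ | ⟨e', a, -⟩)
    · obtain rfl := Sum.inl.inj a
      exact ⟨rfl, rfl⟩
    · exact absurd a (by simp)
  · rintro ⟨rfl, rfl⟩
    exact Or.inl ⟨_, rfl, rfl⟩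

theorem pair_uniq (hG : G.Good) (i i' : Io G Finset.univ) (u v : I) (h : G.Pair i u v)
    (h' : G.Pair i' u v) : i = i' := by
  have k : ∀ e, ¬ ((G.src e = some u ∧ G.tgt e = some u) ∨ (G.src e = some u ∧ G.tgt e = some u)) :=
    fun e h => hG.noloop e (by rcases h with h | h <;> rw [h.1, h.2])
  rcases h with ⟨_, rfl, a⟩ | ⟨e, rfl, a⟩ <;> rcases h' with ⟨_, rfl, b⟩ | ⟨e', rfl, b⟩
  · rfl
  · exact (k e' (a ▸ b)).elim
  · exact (k e (b ▸ a)).elim
  · rw [hG.simple e e' (by
      rcases a with a | a <;> rcases b with b | b <;> simp [a.1, a.2, b.1, b.2, Sym2.eq_swap])]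

theorem pair_om {i : Io G Finset.univ} {u v : I} (hp : G.Pair i u v) :
    G.M0.om i = G.M0.wtv (var u 4) + G.M0.wtv (var v 5) := by
  rw [wtv_var, wtv_var]
  have e0 : ∀ e, G.M0.om (Sum.inr (Sum.inl e)) = (degO (G.src e) + degO (G.tgt e),
    -((if G.src e = none then 1 else 0) + if G.tgt e = none then 1 else 0), 0, 0) := fun _ => rfl
  rcases hp with ⟨_, rfl, rfl⟩ | ⟨e, rfl, ⟨a, b⟩ | ⟨a, b⟩⟩
  · rw [Prod.mk_add_mk, ← Pi.single_add]
    rfl
  · simp [e0, a, b, degO, W]
  · simp [e0, a, b, degO, W, add_comm]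

variable (h : G.M0.Good) (p : ℕ) [Fact p.Prime]

theorem eta_f (hG : G.Good) (a b : I → ℤ_[p]) (i : Io G Finset.univ) :
    ∃ e : ℤ_[p], eta p I (Sum.elim (fun v => a v.1) b) (G.M0.fA ℤ_[p] h i).1 -
      e • (G.M0.fA ℤ_[p] h i).1 =
      (ag G.Pair (G.M0.fA ℤ_[p] h) (abA ℤ_[p]) 0 (fun u v => a u + b v) i).1 := by
  set k : T0 I → ℤ_[p] := Sum.elim (fun v => a v.1) b with hk
  have x0 : ∀ u, eta p I k (X ℤ_[p] u 0) = 0 := fun u => eta_inl p k _
  have x1 : ∀ u, eta p I k (X ℤ_[p] u 1) = 0 := fun u => eta_inl p k _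
  have x2 : ∀ u, eta p I k (X ℤ_[p] u 2) = 0 := fun u => eta_inl p k _
  have x3 : ∀ u, eta p I k (X ℤ_[p] u 3) = 0 := fun u => eta_inl p k _
  have x4 : ∀ u, eta p I k (X ℤ_[p] u 4) = a u • X ℤ_[p] u 4 := fun u => eta_inr p k _
  have x5 : ∀ u, eta p I k (X ℤ_[p] u 5) = b u • X ℤ_[p] u 5 := fun u => eta_inr p k _
  rw [ag, Pi.zero_apply, zero_smul, zero_add]
  rcases i with w | e | w
  · refine ⟨0, ?_⟩
    rw [Finset.sum_eq_single w.1 (fun u _ hu => by simp [pair_q, hu]) (by simp),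
      Finset.sum_eq_single w.1 (fun u _ hu => by simp [pair_q, hu]) (by simp),
      if_pos ((pair_q G w _ _).2 ⟨rfl, rfl⟩), zero_smul, sub_zero]
    change eta p I k (ofPoly torV ℤ_[p] (qP ∅ w.1)) = (a w.1 + b w.1) • (abA ℤ_[p] w.1 w.1).1
    simp only [of_q, abA_val, eta_add, eta_mul, x0, x1, x2, x3, x4, x5, Algebra.smul_def, map_add]
    ring
  · have e2 : (G.M0.fA ℤ_[p] h (Sum.inr (Sum.inl e))).1 =
      ofPoly torV ℤ_[p] (edgeP ∅ (G.src e) (G.tgt e)) := rfl
    have e3 := pair_e G e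
    have nl := hG.noloop e
    rcases hs : G.src e with _ | u <;> rcases ht : G.tgt e with _ | v <;>
      rw [hs, ht] at e2 e3 nl
    · exact absurd rfl nl
    · refine ⟨b v, ?_⟩
      rw [e2, edgeP, of_be, x5, sub_self, Finset.sum_eq_zero fun u _ => by simp [e3]]
      rfl
    · refine ⟨b u, ?_⟩
      rw [e2, edgeP, of_be, x5, sub_self, Finset.sum_eq_zero fun u _ => by simp [e3]]
      rfl
    · refine ⟨0, ?_⟩
      have huv : u ≠ v := fun e => nl (by rw [e])
      rw [Finset.sum_eq_add u v huv (fun w _ hw => by simp [e3, hw.1.symm, hw.2.symm]) (by simp)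
        (by simp), Finset.sum_eq_single v (fun w _ hw => by simp [e3, hw.symm, huv.symm]) (by simp),
        Finset.sum_eq_single u (fun w _ hw => by simp [e3, hw.symm, huv]) (by simp),
        if_pos ((e3 _ _).2 (Or.inl ⟨rfl, rfl⟩)), if_pos ((e3 _ _).2 (Or.inr ⟨rfl, rfl⟩)),
        zero_smul, sub_zero, e2]
      change _ = (a u + b v) • (abA ℤ_[p] u v).1 + (a v + b u) • (abA ℤ_[p] v u).1
      simp only [of_e, abA_val, eta_add, eta_mul, x0, x1, x2, x3, x4, x5, Algebra.smul_def, map_add]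
      ring
  · refine ⟨a w.1, ?_⟩
    have e2 : (G.M0.fA ℤ_[p] h (Sum.inr (Sum.inr w))).1 = ofPoly torV ℤ_[p] (alP ∅ w.1) := rfl
    rw [e2, of_al, x4, sub_self, Finset.sum_eq_zero fun u _ => by simp [PG.Pair]]
    rfl

end Main

theorem v0 (g1 : G1) (_s1 : S1) (_cx : CX) (cc' : CC) (a1 : A1) (_g2a : G2a) (_g2b : G2b) : V0 := by
  intro I E _ _ _ _ G hG h p _ _
  refine ⟨nf_gen G.Pair (G.M0.fA ℤ_[p] h) (abA ℤ_[p]) (cc ℤ_[p] (Ex0 I)) (pair_uniq G hG),
    fun x m s a b hs => ?_⟩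
  have hw : G.M0.w0 = (0, 0, 2, 2) := (a1 I E G hG).2.1
  obtain ⟨hc, hdl, -⟩ := cc' I _ _ G.M0 h ℤ_[p]
  rw [← hw] at hc
  have h0 : cc ℤ_[p] (Ex0 I) (∅ : Finset I) = 0 := H86.cc_off p (by simp)
  obtain ⟨j⟩ : Nonempty I := Fintype.card_pos_iff.1 (by have := hG.four; omega)
  choose e he using eta_f G h p hG a b
  choose! t ht using hs
  set k : T0 I → ℤ_[p] := Sum.elim (fun v => a v.1) b
  refine ⟨fun J => zet G.M0 h p j k (fun i => m i - e i) (cc ℤ_[p] (Ex0 I) J),
    ⟨by simp only [h0, map_zero], fun J => ?_⟩, fun J hJ => by simp only [H86.cc_off p hJ, map_zero],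
    ?_, ?_⟩
  · rcases J.eq_empty_or_nonempty with rfl | hJ
    · simp only [h0, map_zero]
      exact zero_mem _
    · exact zet_mem G.M0 h p g1 j k _ J hJ _ (hc J)
  · funext J
    have := congrArg (zet G.M0 h p j k fun i => m i - e i) (congrFun hdl J)
    rw [H55.dl_apply, map_sum] at this
    simp only [map_smul] at this
    rw [H55.dl_apply, this, Pi.zero_apply, map_zero, Pi.zero_apply]
  · have key : G.xf h p x m s - (fun J => (G.M0.frame p h).dLt
        (zet G.M0 h p j k (fun i => m i - e i) (cc ℤ_[p] (Ex0 I) J))) =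
        H86.em 0 (fun J => x • cc ℤ_[p] (Ex0 I) J - (∑ t, (G.M0.frame p h).d j (yS j t)
          (k t • (xA ℤ_[p] I t * cc ℤ_[p] (Ex0 I) J)) + ∑ i, (m i - e i) • cc ℤ_[p] (Ex0 I) J)) +
        (p : ℤ_[p]) • ∑ i, H86.em (Pi.single i 1) fun J => cc ℤ_[p] (Ex0 I) J *
          ag G.Pair (G.M0.fA ℤ_[p] h) (abA ℤ_[p]) 0 t i := by
      funext J
      rw [Pi.sub_apply, zet_dLt G.M0 h p g1, Pi.add_apply, Pi.smul_apply, Finset.sum_apply]
      refine fin_gen G.Pair (G.M0.fA ℤ_[p] h) (abA ℤ_[p]) (cc ℤ_[p] (Ex0 I)) (p : ℤ_[p]) x m e s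
        (fun u v => a u + b v) t _ (fun i => Subtype.ext ?_) (fun i u v huv => ht u v ?_) J _
      · rw [← he i, ← eta_val G.M0 h p g1 j]
        rfl
      · rcases huv with ⟨_, -, rfl⟩ | ⟨e, -, he⟩
        · exact Or.inl rfl
        · exact Or.inr ⟨e, he⟩
    rw [key]
    refine Submodule.add_mem_sup (H86.em_CB G.M0 h p 0 0 (by simp) _ ⟨by simp [h0], fun J => ?_⟩)
      (H86.ch_sm.2 ⟨_, Submodule.sum_mem _ fun i _ =>
        H86.em_CB G.M0 h p 1 _ (by simp) _ ⟨by simp only [h0, zero_mul], fun J => ?_⟩, rfl⟩)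
    · rw [H86.wl_zero]
      refine sub_mem (Submodule.smul_mem _ _ (hc J)) (add_mem (Submodule.sum_mem _ fun t _ => ?_)
        (Submodule.sum_mem _ fun i _ => Submodule.smul_mem _ _ (hc J)))
      rw [map_smul]
      refine Submodule.smul_mem _ _ ?_
      have := H15.pd_Tp torV (fun v => Sum.inl (v, 0)) G.M0.wtv J _ (Sum.inr t) _
        (H55.Zp_mul ℤ_[p] G.M0 J _ _ _ _ (H55.Zp_tX ℤ_[p] G.M0 J (Sum.inr t)) (hc J))
      rw [add_sub_cancel_left] at this
      change ((G.M0.frame p h).d j (yS j t) _).1 ∈ G.M0.Zp ℤ_[p] J _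
      rw [d_val G.M0 h p g1]
      exact this
    · rw [H86.wl_one]
      refine H55.Zp_mul ℤ_[p] G.M0 J _ _ _ _ (hc J) ?_
      change ag G.Pair (G.M0.fA ℤ_[p] h) (abA ℤ_[p]) 0 t i ∈ G.M0.Ap ℤ_[p] J (G.M0.om i)
      rw [ag, Pi.zero_apply, zero_smul, zero_add]
      refine Submodule.sum_mem _ fun u _ => Submodule.sum_mem _ fun v _ => ?_
      split_ifs with huv
      · refine Submodule.smul_mem _ _ (?_ : (abA ℤ_[p] u v).1 ∈ G.M0.Zp ℤ_[p] J _)
        rw [abA_val, pair_om G huv]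
        exact H55.Zp_mul ℤ_[p] G.M0 J _ _ _ _ (H55.Zp_tX ℤ_[p] G.M0 J _) (H55.Zp_tX ℤ_[p] G.M0 J _)
      · exact zero_mem _

end

end Pool.Agent.MP_ea150c_mp.H50
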