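import Pool.Agent.MP_ea150c_mp.H49.SpecG
import Pool.Agent.MP_ea150c_mp.H45.S1pShiftEx

/-! Koszul complexes in the classes of the functions of the main model. -/

namespace Pool.Agent.MP_ea150c_mp.H50

open Pool.Agent.MP_ea150c_mp.H49

set_option linter.unusedSectionVars false

noncomputable section

section General
variable {I τ ι : Type} [LinearOrder I] [Fintype I] [Fintype τ] [DecidableEq τ]

/-- the vertex of a variable -/
def vx (M : Model I τ ι) : Var I τ → I := Sum.elim (fun y => y.1) M.vert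

theorem wtv_fst (M : Model I τ ι) (x : Var I τ) : (M.wtv x).1 = Pi.single (vx M x) 1 := by
  rcases x with ⟨v, t⟩ | t <;> rfl

theorem wt_fst (M : Model I τ ι) (u : Var I τ → ℤ) (p : I) :
    (M.wt u).1 p = ∑ x, if p = vx M x then u x else 0 := by
  simp only [Model.wt, Prod.fst_sum, Finset.sum_apply, Prod.smul_fst, wtv_fst, Pi.smul_apply,
    Pi.single_apply, smul_eq_mul, mul_ite, mul_one, mul_zero]

theorem wt_sub (M : Model I τ ι) (u : Var I τ → ℤ) (x : Var I τ) :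
    M.wt (u - Pi.single x 1) = M.wt u - M.wtv x := by
  simp only [Model.wt, Pi.sub_apply, sub_smul, Finset.sum_sub_distrib]
  congr 1
  rw [Finset.sum_eq_single x] <;> simp +contextual

theorem peel (M : Model I τ ι) (u : Var I τ → ℤ) (hu : ∀ x, 0 ≤ u x) (p : I) (δ : I → ℤ)
    (hδ : 0 ≤ δ p) (h : (M.wt u).1 = Pi.single p 1 + δ) :
    ∃ x, vx M x = p ∧ (∀ y, 0 ≤ (u - Pi.single x 1 : Var I τ → ℤ) y) ∧
      (M.wt (u - Pi.single x 1)).1 = δ := by
  have h1 : ∑ x, (if p = vx M x then u x else 0) ≠ 0 := by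
    rw [← wt_fst, h]
    simp only [Pi.add_apply, Pi.single_eq_same]
    omega
  obtain ⟨x, -, hx⟩ := Finset.exists_ne_zero_of_sum_ne_zero h1
  have h2 : p = vx M x := by
    by_contra h3
    exact hx (if_neg h3)
  rw [if_pos h2] at hx
  refine ⟨x, h2.symm, fun y => ?_, ?_⟩
  · have := hu y
    by_cases h4 : y = x
    · subst h4
      simp only [Pi.sub_apply, Pi.single_eq_same]
      omega
    · simpa [Pi.single_apply, h4] using this
  · rw [wt_sub, Prod.fst_sub, h, wtv_fst, ← h2, add_sub_cancel_left]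

theorem zero_of (M : Model I τ ι) (u : Var I τ → ℤ) (hu : ∀ x, 0 ≤ u x) (h : (M.wt u).1 = 0) :
    u = 0 := by
  funext x
  have h1 : ∑ y, (if vx M x = vx M y then u y else 0) = 0 := by
    rw [← wt_fst, h]
    rfl
  have := (Finset.sum_eq_zero_iff_of_nonneg fun y _ => by
    split_ifs
    · exact hu y
    · exact le_rfl).1 h1 x (Finset.mem_univ x)
  simpa using this

theorem wt_zero (M : Model I τ ι) : M.wt 0 = 0 := by simp [Model.wt]

variable (Λ : Type) [CommRing Λ]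

theorem nonneg_of (u : Mon (torV : Var I τ → Bool))
    (h : ∀ v, v ∉ (∅ : Finset I) → 0 ≤ u.1 (Sum.inl (v, 0))) (x : Var I τ) : 0 ≤ u.1 x := by
  cases ht : torV x
  · exact u.2 x ht
  · rcases x with ⟨v, t⟩ | t
    · simp only [torV, decide_eq_true_eq] at ht
      subst ht
      exact h v (by simp)
    · simp [torV] at ht

theorem tX_eq (x : Var I τ) :
    tX torV Λ x = AddMonoidAlgebra.single ⟨Pi.single x 1, single_mem torV x⟩ 1 := by
  simp only [tX, monoZ, dif_pos (single_mem torV x)]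

theorem ind1 (M : Model I τ ι) (p : I) (w : Gam I) (hw : w.1 = Pi.single p 1)
    (S : Submodule Λ (Zr Λ I τ)) (h : ∀ x, vx M x = p → M.wtv x = w → tX torV Λ x ∈ S) :
    M.Zp Λ ∅ w ≤ S := by
  intro z hz
  refine H45.supp_ind (Q := fun z => z ∈ S) hz S.zero_mem (fun _ _ => S.add_mem) ?_
  rintro u c ⟨h1, h2⟩ -
  have hu := nonneg_of u h1
  obtain ⟨x, a1, a2, a3⟩ := peel M u.1 hu p 0 le_rfl (by rw [h2, hw, add_zero])
  have a4 := zero_of M _ a2 a3
  have a5 := wt_sub M u.1 x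
  rw [a4, wt_zero, h2] at a5
  have a6 : u = ⟨Pi.single x 1, single_mem torV x⟩ := Subtype.ext (sub_eq_zero.1 a4)
  rw [H45.single_eq_smul, a6, ← tX_eq]
  exact S.smul_mem _ (h x a1 (sub_eq_zero.1 a5.symm).symm)

theorem ind2 (M : Model I τ ι) (p q : I) (w : Gam I) (hw : w.1 = Pi.single p 1 + Pi.single q 1)
    (S : Submodule Λ (Zr Λ I τ)) (h : ∀ x y, vx M x = p → vx M y = q → M.wtv x + M.wtv y = w →
      tX torV Λ x * tX torV Λ y ∈ S) : M.Zp Λ ∅ w ≤ S := by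
  intro z hz
  refine H45.supp_ind (Q := fun z => z ∈ S) hz S.zero_mem (fun _ _ => S.add_mem) ?_
  rintro u c ⟨h1, h2⟩ -
  have hu := nonneg_of u h1
  obtain ⟨x, a1, a2, a3⟩ := peel M u.1 hu p (Pi.single q 1)
    (by rw [Pi.single_apply]; split_ifs <;> omega) (by rw [h2, hw])
  obtain ⟨y, b1, b2, b3⟩ := peel M _ a2 q 0 le_rfl (by rw [a3, add_zero])
  have a4 := zero_of M _ b2 b3
  have a5 := wt_sub M (u.1 - Pi.single x 1) y
  rw [a4, wt_zero, wt_sub, h2, sub_sub] at a5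
  rw [sub_sub] at a4
  have a6 : u = ⟨Pi.single x 1, single_mem torV x⟩ + ⟨Pi.single y 1, single_mem torV y⟩ :=
    Subtype.ext (sub_eq_zero.1 a4)
  have a7 := h x y a1 b1 (sub_eq_zero.1 a5.symm).symm
  rw [tX_eq, tX_eq, AddMonoidAlgebra.single_mul_single, one_mul, ← a6] at a7
  rw [H45.single_eq_smul]
  exact S.smul_mem _ a7

/-- invariants plus the image of the last differential -/
def Tg (M : Model I τ ι) (w : Gam I) (Inv : Submodule Λ (Ainv Λ I τ)) : Submodule Λ (Zr Λ I τ) :=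
  Inv.map (Ainv Λ I τ).val.toLinearMap ⊔ ((M.Zp Λ ∅ (w - (0, 0, 2, 0))).map (xiZ' Λ I τ) ⊔
    (M.Zp Λ ∅ (w - (0, 0, 0, 2))).map (xiZ Λ I τ))

theorem tg_inv (M : Model I τ ι) (w : Gam I) (Inv : Submodule Λ (Ainv Λ I τ)) {h : Ainv Λ I τ}
    (hh : h ∈ Inv) : h.1 ∈ Tg Λ M w Inv :=
  Submodule.mem_sup_left (Submodule.mem_map_of_mem hh)

theorem tg_one (M : Model I τ ι) (w : Gam I) (Inv : Submodule Λ (Ainv Λ I τ)) {z : Zr Λ I τ}
    (hz : z ∈ M.Zp Λ ∅ (w - (0, 0, 2, 0))) : xiZ' Λ I τ z ∈ Tg Λ M w Inv :=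
  Submodule.mem_sup_right (Submodule.mem_sup_left (Submodule.mem_map_of_mem hz))

theorem tg_two (M : Model I τ ι) (w : Gam I) (Inv : Submodule Λ (Ainv Λ I τ)) {z : Zr Λ I τ}
    (hz : z ∈ M.Zp Λ ∅ (w - (0, 0, 0, 2))) : xiZ Λ I τ z ∈ Tg Λ M w Inv :=
  Submodule.mem_sup_right (Submodule.mem_sup_right (Submodule.mem_map_of_mem hz))

theorem kosV_of (M : Model I τ ι) (w : Gam I) (Inv : Submodule Λ (Ainv Λ I τ)) (h1 : M.KosW Λ w)
    (h2 : ∀ h ∈ Inv, h ∈ M.Ap Λ ∅ (w - (0, 0, 2, 2)))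
    (h3 : M.Zp Λ ∅ (w - (0, 0, 2, 2)) ≤ Tg Λ M w Inv) : M.KosV Λ w Inv := by
  refine ⟨h1, h2, fun v hv => ?_⟩
  obtain ⟨_, ⟨h, hh, rfl⟩, y, hy, rfl⟩ := Submodule.mem_sup.1 (h3 hv)
  obtain ⟨_, ⟨z₁, hz₁, rfl⟩, _, ⟨z₂, hz₂, rfl⟩, rfl⟩ := Submodule.mem_sup.1 hy
  refine ⟨h, hh, z₁, hz₁, -z₂, neg_mem hz₂, ?_⟩
  rw [map_neg, sub_neg_eq_add, add_assoc]
  rfl

/-- evaluation at a point with all `c = 1` -/
def ev (τ : Type) [Fintype τ] [DecidableEq τ] (g : I × Fin 4 → Λ) : Zr Λ I τ →ₐ[Λ] Λ :=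
  tlift torV (Sum.elim (fun y => if y.2 = 0 then 1 else g y) fun _ => 0) (fun _ => 1) (by
    rintro (⟨v, t⟩ | t) h
    · simp only [torV, decide_eq_true_eq] at h
      simp [h]
    · simp [torV] at h)

theorem ev_tX (g : I × Fin 4 → Λ) (y : I × Fin 4) :
    ev Λ τ g (tX torV Λ (Sum.inl y)) = if y.2 = 0 then 1 else g y := tlift_tX _ _ _ _ _

end General

/-- the extra variables of the main model -/
abbrev T0 (I : Type) : Type := Ex (∅ : Finset I)

section Main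
variable {I E : Type} [LinearOrder I] [Fintype I] [Fintype E] [DecidableEq E]

/-- the six variables at a vertex -/
def var (p : I) : Fin 6 → Var I (T0 I) :=
  ![Sum.inl (p, 0), Sum.inl (p, 1), Sum.inl (p, 2), Sum.inl (p, 3),
    Sum.inr (Sum.inl ⟨p, Finset.notMem_empty p⟩), Sum.inr (Sum.inr p)]

/-- their weights -/
def W : Fin 6 → ℤ × ℤ × ℤ := ![(0, -1, -1), (0, -1, 1), (0, 1, -1), (0, 1, 1), (1, 0, 0), (-1, 0, 0)]

theorem wtv_var (G : PG I E) (p : I) (k : Fin 6) :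
    (G.model ∅ Finset.univ).wtv (var p k) = (Pi.single p 1, W k) := by
  fin_cases k <;> rfl

theorem ex_var (G : PG I E) (p : I) (x : Var I (T0 I))
    (h : vx (G.model ∅ Finset.univ) x = p) : ∃ k, x = var p k := by
  rcases x with ⟨v, t⟩ | ⟨v, hv⟩ | v
  · obtain rfl : v = p := h
    fin_cases t
    exacts [⟨0, rfl⟩, ⟨1, rfl⟩, ⟨2, rfl⟩, ⟨3, rfl⟩]
  · obtain rfl : v = p := h
    exact ⟨4, rfl⟩
  · obtain rfl : v = p := h
    exact ⟨5, rfl⟩

variable (Λ : Type) [CommRing Λ]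

/-- the variables in the ring upstairs -/
def X (p : I) (k : Fin 6) : Zr Λ I (T0 I) := tX torV Λ (var p k)

theorem ind1' (G : PG I E) (p : I) (w : ℤ × ℤ × ℤ)
    (S : Submodule Λ (Zr Λ I (T0 I))) (h : ∀ k, W k = w → X Λ p k ∈ S) :
    (G.model ∅ Finset.univ).Zp Λ ∅ (Pi.single p 1, w) ≤ S := by
  refine ind1 Λ _ p _ rfl S fun x hx e => ?_
  obtain ⟨k, rfl⟩ := ex_var G p x hx
  rw [wtv_var] at e
  exact h k (congrArg Prod.snd e)

theorem ind2' (G : PG I E) (p q : I) (w : ℤ × ℤ × ℤ)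
    (S : Submodule Λ (Zr Λ I (T0 I)))
    (h : ∀ k l, W k + W l = w → X Λ p k * X Λ q l ∈ S) :
    (G.model ∅ Finset.univ).Zp Λ ∅ (Pi.single p 1 + Pi.single q 1, w) ≤ S := by
  refine ind2 Λ _ p q _ rfl S fun x y hx hy e => ?_
  obtain ⟨k, rfl⟩ := ex_var G p x hx
  obtain ⟨l, rfl⟩ := ex_var G q y hy
  rw [wtv_var, wtv_var] at e
  exact h k l (congrArg Prod.snd e)

theorem w22 : ∀ k l, W k + W l = (0, 2, 2) → k = 3 ∧ l = 3 := by decide

theorem w02 : ∀ k l, W k + W l = (0, 0, 2) → (k = 1 ∧ l = 3) ∨ (k = 3 ∧ l = 1) := by decide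

theorem w20 : ∀ k l, W k + W l = (0, 2, 0) → (k = 2 ∧ l = 3) ∨ (k = 3 ∧ l = 2) := by decide

theorem w00 : ∀ k l, W k + W l = (0, 0, 0) → (k = 0 ∧ l = 3) ∨ (k = 3 ∧ l = 0) ∨ (k = 1 ∧ l = 2) ∨
    (k = 2 ∧ l = 1) ∨ (k = 4 ∧ l = 5) ∨ (k = 5 ∧ l = 4) := by decide

theorem abA_val (u v : I) : (abA Λ u v).1 = X Λ u 4 * X Λ v 5 := by
  change sj Λ _ u (ofPoly torV Λ (alP ∅ u * beP ∅ v)) = _
  rw [alP, dif_pos (Finset.notMem_empty u), beP, map_mul, map_mul, ofPoly,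
    MvPolynomial.eval₂Hom_X', MvPolynomial.eval₂Hom_X', sj_tX, sj_tX]
  rfl

theorem of_al (u : I) : ofPoly torV Λ (alP ∅ u) = X Λ u 4 := by
  rw [alP, dif_pos (Finset.notMem_empty u), ofPoly, MvPolynomial.eval₂Hom_X']
  rfl

theorem of_be (u : I) : ofPoly torV Λ (beP ∅ u) = X Λ u 5 := by
  rw [beP, ofPoly, MvPolynomial.eval₂Hom_X']
  rfl

theorem of_q (u : I) : ofPoly torV Λ (qP ∅ u) =
    X Λ u 4 * X Λ u 5 + X Λ u 0 * X Λ u 3 + X Λ u 1 * X Λ u 2 := by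
  rw [qP, map_add, map_add, map_mul, map_mul, map_mul, of_al, of_be, ofPoly]
  simp only [MvPolynomial.eval₂Hom_X']
  rfl

theorem of_e (u v : I) : ofPoly torV Λ (edgeP ∅ (some u) (some v)) =
    X Λ u 4 * X Λ v 5 + X Λ u 5 * X Λ v 4 + (X Λ u 0 * X Λ v 3 + X Λ u 3 * X Λ v 0 +
      X Λ u 1 * X Λ v 2 + X Λ u 2 * X Λ v 1) := by
  rw [edgeP, map_add, map_add, map_mul, map_mul, of_al, of_be, of_al, of_be, xxP, ofPoly]
  simp only [map_add, map_mul, MvPolynomial.eval₂Hom_X']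
  rfl

/-- what is used from the basic facts -/
structure Fa (G : PG I E) : Prop where
  m1 : ∀ a b, xiZ Λ I (T0 I) (a * b) = xiZ Λ I (T0 I) a * b + a * xiZ Λ I (T0 I) b
  m2 : ∀ a b, xiZ' Λ I (T0 I) (a * b) = xiZ' Λ I (T0 I) a * b + a * xiZ' Λ I (T0 I) b
  x2 : ∀ p, xiZ Λ I (T0 I) (X Λ p 2) = X Λ p 0
  x3 : ∀ p, xiZ Λ I (T0 I) (X Λ p 3) = -X Λ p 1
  y1 : ∀ p, xiZ' Λ I (T0 I) (X Λ p 1) = X Λ p 0
  y3 : ∀ p, xiZ' Λ I (T0 I) (X Λ p 3) = -X Λ p 2
  one : ∀ p k, X Λ p k ∈ (G.model ∅ Finset.univ).Zp Λ ∅ (Pi.single p 1, W k)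
  two : ∀ p q k l, X Λ p k * X Λ q l ∈
    (G.model ∅ Finset.univ).Zp Λ ∅ (Pi.single p 1 + Pi.single q 1, W k + W l)

theorem fa (cx : CX) (G : PG I E) (h : (G.model ∅ Finset.univ).Good) : Fa Λ G := by
  obtain ⟨a1, a2, -, a4, a5, -, -, -, -, a6, a7, -, -⟩ := cx _ _ _ _ h Λ
  have b : ∀ p k, X Λ p k ∈ (G.model ∅ Finset.univ).Zp Λ ∅ (Pi.single p 1, W k) := fun p k => by
    rw [← wtv_var G]
    exact (a6 ∅).2 _
  exact ⟨a1, a2, fun p => a4 _, fun p => a4 _, fun p => a5 _, fun p => a5 _, b,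
    fun p q k l => a7 _ _ _ _ _ (b p k) (b q l)⟩

theorem ev_X (g : I × Fin 4 → Λ) (p : I) : ev Λ _ g (X Λ p 0) = 1 ∧ ev Λ _ g (X Λ p 1) = g (p, 1) ∧
    ev Λ _ g (X Λ p 2) = g (p, 2) ∧ ev Λ _ g (X Λ p 3) = g (p, 3) :=
  ⟨ev_tX Λ g (p, 0), ev_tX Λ g (p, 1), ev_tX Λ g (p, 2), ev_tX Λ g (p, 3)⟩

theorem sub1 (δ : I → ℤ) (e : ℤ) : ((δ, e, 2, 2) : Gam I) - (0, 0, 2, 0) = (δ, e, 0, 2) := by
  simp

theorem sub2 (δ : I → ℤ) (e : ℤ) : ((δ, e, 2, 2) : Gam I) - (0, 0, 0, 2) = (δ, e, 2, 0) := by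
  simp

theorem sub3 (δ : I → ℤ) (e : ℤ) : ((δ, e, 2, 2) : Gam I) - (0, 0, 2, 2) = (δ, e, 0, 0) := by
  simp [Prod.ext_iff]

variable {Λ}

theorem kosW_two {G : PG I E} (F : Fa Λ G) (h2 : IsUnit (2 : Λ)) (p q : I) :
    (G.model ∅ Finset.univ).KosW Λ (Pi.single p 1 + Pi.single q 1, 0, 2, 2) := by
  obtain ⟨t, ht⟩ := h2.exists_right_inv
  constructor
  · intro z hz e _
    have := ind2' Λ G p q _ (Submodule.span Λ {X Λ p 3 * X Λ q 3}) (fun k l e => by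
      obtain ⟨rfl, rfl⟩ := w22 k l e
      exact Submodule.mem_span_singleton_self _) hz
    obtain ⟨r, rfl⟩ := Submodule.mem_span_singleton.1 this
    have e1 := congrArg (ev Λ _ fun _ => 1) e
    simp only [map_smul, F.m1, F.x3, map_add, map_mul, map_neg, ev_X, map_zero, smul_eq_mul] at e1
    have : r = 0 := by linear_combination (-t) * e1 - r * ht
    rw [this, zero_smul]
  · intro z₁ hz₁ z₂ hz₂ e
    rw [sub1] at hz₁
    rw [sub2] at hz₂
    have a1 := ind2' Λ G p q _ (Submodule.span Λ {X Λ p 1 * X Λ q 3, X Λ p 3 * X Λ q 1})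
      (fun k l e => by
        rcases w02 k l e with ⟨rfl, rfl⟩ | ⟨rfl, rfl⟩ <;> exact Submodule.subset_span (by simp)) hz₁
    have a2 := ind2' Λ G p q _ (Submodule.span Λ {X Λ p 2 * X Λ q 3, X Λ p 3 * X Λ q 2})
      (fun k l e => by
        rcases w20 k l e with ⟨rfl, rfl⟩ | ⟨rfl, rfl⟩ <;> exact Submodule.subset_span (by simp)) hz₂
    obtain ⟨r₁, r₂, rfl⟩ := Submodule.mem_span_pair.1 a1
    obtain ⟨s₁, s₂, rfl⟩ := Submodule.mem_span_pair.1 a2
    have key : ∀ g : I × Fin 4 → Λ,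
        r₁ * (g (q, 3) - g (p, 1) * g (q, 2)) + r₂ * (g (p, 3) - g (p, 2) * g (q, 1)) =
        s₁ * (g (q, 3) - g (p, 2) * g (q, 1)) + s₂ * (g (p, 3) - g (p, 1) * g (q, 2)) := by
      intro g
      have e1 := congrArg (ev Λ _ g) e
      simp only [map_smul, F.m1, F.m2, F.x2, F.x3, F.y1, F.y3, map_add, map_mul, map_neg, ev_X,
        smul_eq_mul] at e1
      linear_combination e1
    have hm : X Λ p 3 * X Λ q 3 ∈
        (G.model ∅ Finset.univ).Zp Λ ∅ (Pi.single p 1 + Pi.single q 1, 0, 2, 2) := F.two p q 3 3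
    by_cases hpq : p = q
    · subst hpq
      have k1 := key fun y => if y.2 = 3 then 1 else 0
      simp only [Fin.reduceEq, if_true, if_false] at k1
      have k2 : s₂ = r₁ + r₂ - s₁ := by linear_combination -k1
      have ht' := congrArg (algebraMap Λ (Zr Λ I (T0 I))) ht
      rw [map_mul, map_ofNat, map_one] at ht'
      refine ⟨(-(t * (r₁ + r₂))) • (X Λ p 3 * X Λ p 3), Submodule.smul_mem _ _ hm, ?_, ?_⟩
      · rw [map_smul, F.m1, F.x3]
        simp only [Algebra.smul_def, map_neg, map_mul, map_add]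
        linear_combination (algebraMap Λ (Zr Λ I (T0 I)) r₁ + algebraMap Λ (Zr Λ I (T0 I)) r₂) *
          (X Λ p 1 * X Λ p 3) * ht'
      · rw [map_smul, F.m2, F.y3, k2]
        simp only [Algebra.smul_def, map_neg, map_mul, map_add, map_sub]
        linear_combination (algebraMap Λ (Zr Λ I (T0 I)) r₁ + algebraMap Λ (Zr Λ I (T0 I)) r₂) *
          (X Λ p 2 * X Λ p 3) * ht'
    · have k1 := key fun y => if y = (q, 3) then 1 else 0
      have k2 := key fun y => if y = (p, 3) then 1 else 0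
      have k3 := key fun y => if y = (p, 1) ∨ y = (q, 2) then 1 else 0
      simp only [Prod.mk.injEq, Fin.reduceEq, hpq, Ne.symm hpq, and_false, and_true,
        if_true, if_false, or_false, false_or, or_self] at k1 k2 k3
      have l1 : s₁ = r₁ := by linear_combination -k1
      have l2 : s₂ = r₁ := by linear_combination k3
      have l3 : r₂ = r₁ := by linear_combination k2 + k3
      refine ⟨(-r₁) • (X Λ p 3 * X Λ q 3), Submodule.smul_mem _ _ hm, ?_, ?_⟩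
      · rw [map_smul, F.m1, F.x3, F.x3, l3]
        simp only [Algebra.smul_def, map_neg]
        ring
      · rw [map_smul, F.m2, F.y3, F.y3, l1, l2]
        simp only [Algebra.smul_def, map_neg]
        ring

theorem kosV_two {G : PG I E} (F : Fa Λ G) (h2 : IsUnit (2 : Λ)) (p q : I)
    (Inv : Submodule Λ (Ainv Λ I (T0 I)))
    (hI : ∀ h ∈ Inv, h ∈ (G.model ∅ Finset.univ).Ap Λ ∅ (Pi.single p 1 + Pi.single q 1, 0, 0, 0))
    (h45 : abA Λ p q ∈ Inv) (h54 : abA Λ q p ∈ Inv)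
    (hf : X Λ p 0 * X Λ q 3 + X Λ p 3 * X Λ q 0 + X Λ p 1 * X Λ q 2 + X Λ p 2 * X Λ q 1 ∈
      Inv.map (Ainv Λ I (T0 I)).val.toLinearMap) :
    (G.model ∅ Finset.univ).KosV Λ (Pi.single p 1 + Pi.single q 1, 0, 2, 2) Inv := by
  refine kosV_of Λ _ _ _ (kosW_two F h2 p q) (by rw [sub3]; exact hI) ?_
  rw [sub3]
  obtain ⟨t, ht⟩ := h2.exists_right_inv
  have ht' := congrArg (algebraMap Λ (Zr Λ I (T0 I))) ht
  rw [map_mul, map_ofNat, map_one] at ht'
  set S := Tg Λ (G.model ∅ Finset.univ) (Pi.single p 1 + Pi.single q 1, 0, 2, 2) Inv with hS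
  have a0 : _ ∈ S := Submodule.mem_sup_left hf
  have a1 : xiZ' Λ I (T0 I) (X Λ p 1 * X Λ q 3) ∈ S :=
    tg_one Λ _ _ Inv (by rw [sub1]; exact F.two p q 1 3)
  have a2 : xiZ' Λ I (T0 I) (X Λ p 3 * X Λ q 1) ∈ S :=
    tg_one Λ _ _ Inv (by rw [sub1]; exact F.two p q 3 1)
  have a3 : xiZ Λ I (T0 I) (X Λ p 2 * X Λ q 3) ∈ S :=
    tg_two Λ _ _ Inv (by rw [sub2]; exact F.two p q 2 3)
  rw [F.m2, F.y1, F.y3] at a1
  rw [F.m2, F.y1, F.y3] at a2
  rw [F.m1, F.x2, F.x3] at a3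
  have b0 : X Λ p 0 * X Λ q 3 ∈ S := by
    have := S.smul_mem (t * t) (add_mem (add_mem (add_mem (sub_mem a0 a2) a1) a3) a3)
    have e : (t * t) • (X Λ p 0 * X Λ q 3 + X Λ p 3 * X Λ q 0 + X Λ p 1 * X Λ q 2 +
        X Λ p 2 * X Λ q 1 - (-X Λ p 2 * X Λ q 1 + X Λ p 3 * X Λ q 0) +
        (X Λ p 0 * X Λ q 3 + X Λ p 1 * -X Λ q 2) + (X Λ p 0 * X Λ q 3 + X Λ p 2 * -X Λ q 1) +
        (X Λ p 0 * X Λ q 3 + X Λ p 2 * -X Λ q 1)) = X Λ p 0 * X Λ q 3 := by
      rw [Algebra.smul_def, map_mul]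
      linear_combination (X Λ p 0 * X Λ q 3) * (2 * algebraMap Λ (Zr Λ I (T0 I)) t + 1) * ht'
    rwa [e] at this
  have b1 : X Λ p 1 * X Λ q 2 ∈ S := by
    have := sub_mem b0 a1
    rwa [show X Λ p 0 * X Λ q 3 - (X Λ p 0 * X Λ q 3 + X Λ p 1 * -X Λ q 2) = X Λ p 1 * X Λ q 2 by
      ring] at this
  have b2 : X Λ p 2 * X Λ q 1 ∈ S := by
    have := sub_mem b0 a3
    rwa [show X Λ p 0 * X Λ q 3 - (X Λ p 0 * X Λ q 3 + X Λ p 2 * -X Λ q 1) = X Λ p 2 * X Λ q 1 by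
      ring] at this
  have b3 : X Λ p 3 * X Λ q 0 ∈ S := by
    have := add_mem a2 b2
    rwa [show -X Λ p 2 * X Λ q 1 + X Λ p 3 * X Λ q 0 + X Λ p 2 * X Λ q 1 = X Λ p 3 * X Λ q 0 by
      ring] at this
  refine ind2' Λ G p q _ S fun k l e => ?_
  rcases w00 k l e with ⟨rfl, rfl⟩ | ⟨rfl, rfl⟩ | ⟨rfl, rfl⟩ | ⟨rfl, rfl⟩ | ⟨rfl, rfl⟩ | ⟨rfl, rfl⟩
  · exact b0
  · exact b3
  · exact b1
  · exact b2
  · rw [← abA_val]
    exact tg_inv Λ _ _ Inv h45
  · rw [mul_comm, ← abA_val]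
    exact tg_inv Λ _ _ Inv h54

theorem kosV_one {G : PG I E} (p : I) (k : Fin 6) (e : ℤ) (he : e = 1 ∨ e = -1)
    (hk : W k = (e, 0, 0)) (Inv : Submodule Λ (Ainv Λ I (T0 I)))
    (hI : ∀ h ∈ Inv, h ∈ (G.model ∅ Finset.univ).Ap Λ ∅ (Pi.single p 1, e, 0, 0))
    (hf : ∃ h ∈ Inv, h.1 = X Λ p k) :
    (G.model ∅ Finset.univ).KosV Λ (Pi.single p 1, e, 2, 2) Inv := by
  have d1 : ∀ l, W l ≠ (e, 2, 2) ∧ W l ≠ (e, 0, 2) ∧ W l ≠ (e, 2, 0) := by
    rcases he with rfl | rfl <;> decide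
  have d2 : ∀ l l', W l = (e, 0, 0) → W l' = (e, 0, 0) → l = l' := by
    rcases he with rfl | rfl <;> decide
  refine kosV_of Λ _ _ _ ⟨fun z hz _ _ => ?_, fun z₁ hz₁ z₂ hz₂ _ => ?_⟩ (by rw [sub3]; exact hI) ?_
  · exact ind1' Λ G p _ ⊥ (fun l h => ((d1 l).1 h).elim) hz
  · rw [sub1] at hz₁
    rw [sub2] at hz₂
    obtain rfl : z₁ = 0 := ind1' Λ G p _ ⊥ (fun l h => ((d1 l).2.1 h).elim) hz₁
    obtain rfl : z₂ = 0 := ind1' Λ G p _ ⊥ (fun l h => ((d1 l).2.2 h).elim) hz₂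
    exact ⟨0, zero_mem _, map_zero _, map_zero _⟩
  · rw [sub3]
    refine ind1' Λ G p _ _ fun l h => ?_
    obtain ⟨f, h1, h2⟩ := hf
    rw [d2 l k h hk, ← h2]
    exact tg_inv Λ _ _ Inv h1

theorem add22 (δ : I → ℤ) (e : ℤ) : ((0, 0, 2, 2) : Gam I) + (δ, e, 0, 0) = (δ, e, 2, 2) := by
  simp

theorem inv_le {G : PG I E} (h : (G.model ∅ Finset.univ).Good) (i : Io G Finset.univ) (w : Gam I)
    (h1 : ofPoly torV Λ ((G.model ∅ Finset.univ).f i) ∈ (G.model ∅ Finset.univ).Zp Λ ∅ w)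
    (h2 : ∀ u v, G.Pair i u v → X Λ u 4 * X Λ v 5 ∈ (G.model ∅ Finset.univ).Zp Λ ∅ w) :
    ∀ a ∈ G.InvI h Λ i, a ∈ (G.model ∅ Finset.univ).Ap Λ ∅ w := by
  refine fun a ha => Submodule.span_le.2 ?_ ha
  rintro _ (rfl | ⟨u, v, huv, rfl⟩)
  · exact h1
  · have := h2 u v huv
    rw [← abA_val] at this
    exact this

theorem f_mem {G : PG I E} (h : (G.model ∅ Finset.univ).Good) (i : Io G Finset.univ) :
    (G.model ∅ Finset.univ).fA Λ h i ∈ G.InvI h Λ i := Submodule.subset_span (Or.inl rfl)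

theorem ab_mem {G : PG I E} (h : (G.model ∅ Finset.univ).Good) (i : Io G Finset.univ) {u v : I}
    (huv : G.Pair i u v) : abA Λ u v ∈ G.InvI h Λ i :=
  Submodule.subset_span (Or.inr ⟨u, v, huv, rfl⟩)

theorem small_two (h : 4 ≤ Fintype.card I) (p q : I) :
    H49.Small ((Pi.single p 1 + Pi.single q 1, 0, 2, 2) : Gam I) := by
  simp [H49.Small, Finset.sum_add_distrib]
  omega

theorem small_one (h : 4 ≤ Fintype.card I) (p : I) (e : ℤ) (he : e = 1 ∨ e = -1) :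
    H49.Small ((Pi.single p 1, e, 2, 2) : Gam I) := by
  rcases he with rfl | rfl <;> simp [H49.Small] <;> omega

end Main

theorem cv1 (cx : CX) (_s1 : S1) : CV1 := by
  intro I E _ _ _ _ G hG h Λ _ h2 i
  have F := fa Λ cx G h
  rcases i with ⟨v, hv⟩ | e | ⟨v, hv⟩
  · have e0 : (G.model ∅ Finset.univ).om (Sum.inl ⟨v, hv⟩) =
        (Pi.single v 1 + Pi.single v 1, 0, 0, 0) := by
      rw [← Pi.single_add]
      rfl
    rw [e0, add22]
    have hp : G.Pair (Sum.inl ⟨v, hv⟩) v v := Or.inl ⟨hv, rfl, rfl⟩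
    refine ⟨small_two hG.four v v, kosV_two F h2 v v _ (inv_le h _ _ ?_ ?_) (ab_mem h _ hp)
      (ab_mem h _ hp) ?_⟩
    · change ofPoly torV Λ (qP ∅ v) ∈ _
      rw [of_q]
      exact add_mem (add_mem (F.two v v 4 5) (F.two v v 0 3)) (F.two v v 1 2)
    · rintro u w (⟨_, e1, rfl⟩ | ⟨_, e1, -⟩)
      · obtain rfl : v = w := congrArg Subtype.val (Sum.inl.inj e1)
        exact F.two v v 4 5
      · exact absurd e1 (by simp)
    · have a1 := sub_mem (f_mem h (Sum.inl ⟨v, hv⟩)) (ab_mem (Λ := Λ) h _ hp)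
      refine ⟨_, add_mem a1 a1, ?_⟩
      change ofPoly torV Λ (qP ∅ v) - (abA Λ v v).1 + (ofPoly torV Λ (qP ∅ v) - (abA Λ v v).1) = _
      rw [of_q, abA_val]
      ring
  · have e0 : (G.model ∅ Finset.univ).om (Sum.inr (Sum.inl e)) =
        (degO (G.src e) + degO (G.tgt e),
          -((if G.src e = none then 1 else 0) + if G.tgt e = none then 1 else 0), 0, 0) := rfl
    have e1 : (G.model ∅ Finset.univ).f (Sum.inr (Sum.inl e)) = edgeP ∅ (G.src e) (G.tgt e) := rfl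
    have e2 : ((G.model ∅ Finset.univ).fA Λ h (Sum.inr (Sum.inl e))).1 =
      ofPoly torV Λ (edgeP ∅ (G.src e) (G.tgt e)) := rfl
    have e3 : ∀ u v, G.Pair (Sum.inr (Sum.inl e)) u v ↔
        (G.src e = some u ∧ G.tgt e = some v) ∨ (G.src e = some v ∧ G.tgt e = some u) := by
      intro u v
      constructor
      · rintro (⟨_, a, -⟩ | ⟨e', a, b⟩)
        · exact absurd a (by simp)
        · obtain rfl : e = e' := Sum.inl.inj (Sum.inr.inj a)
          exact b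
      · exact fun b => Or.inr ⟨e, rfl, b⟩
    have nl := hG.noloop e
    rw [e0]
    rcases hs : G.src e with _ | p <;> rcases ht : G.tgt e with _ | q <;>
      rw [hs, ht] at e1 e2 e3 nl
    · exact absurd rfl nl
    · have e4 : ((degO none + degO (some q), -((if (none : Option I) = none then 1 else 0) +
          if some q = none then 1 else 0), 0, 0) : Gam I) = (Pi.single q 1, -1, 0, 0) := by
        simp [degO]
      rw [e4, add22]
      refine ⟨small_one hG.four q _ (Or.inr rfl), kosV_one q 5 _ (Or.inr rfl) rfl _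
        (inv_le h _ _ ?_ ?_) ⟨_, f_mem h _, e2.trans (of_be Λ q)⟩⟩
      · rw [e1, edgeP, of_be]
        exact F.one q 5
      · intro u v huv
        simp [e3] at huv
    · have e4 : ((degO (some p) + degO none, -((if some p = none then 1 else 0) +
          if (none : Option I) = none then 1 else 0), 0, 0) : Gam I) = (Pi.single p 1, -1, 0, 0) := by
        simp [degO]
      rw [e4, add22]
      refine ⟨small_one hG.four p _ (Or.inr rfl), kosV_one p 5 _ (Or.inr rfl) rfl _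
        (inv_le h _ _ ?_ ?_) ⟨_, f_mem h _, e2.trans (of_be Λ p)⟩⟩
      · rw [e1, edgeP, of_be]
        exact F.one p 5
      · intro u v huv
        simp [e3] at huv
    · have e4 : ((degO (some p) + degO (some q), -((if some p = none then 1 else 0) +
          if some q = none then 1 else 0), 0, 0) : Gam I) =
          (Pi.single p 1 + Pi.single q 1, 0, 0, 0) := by
        simp [degO]
      rw [e4, add22]
      have hp : G.Pair (Sum.inr (Sum.inl e)) p q := (e3 p q).2 (Or.inl ⟨rfl, rfl⟩)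
      have hq : G.Pair (Sum.inr (Sum.inl e)) q p := (e3 q p).2 (Or.inr ⟨rfl, rfl⟩)
      refine ⟨small_two hG.four p q, kosV_two F h2 p q _ (inv_le h _ _ ?_ ?_) (ab_mem h _ hp)
        (ab_mem h _ hq) ?_⟩
      · rw [e1, of_e]
        exact add_mem (add_mem (F.two p q 4 5) (F.two p q 5 4)) (add_mem (add_mem (add_mem
          (F.two p q 0 3) (F.two p q 3 0)) (F.two p q 1 2)) (F.two p q 2 1))
      · intro u v huv
        rcases (e3 u v).1 huv with ⟨a, b⟩ | ⟨a, b⟩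
        · obtain rfl := Option.some.inj a
          obtain rfl := Option.some.inj b
          exact F.two p q 4 5
        · obtain rfl := Option.some.inj a
          obtain rfl := Option.some.inj b
          rw [mul_comm]
          exact F.two p q 5 4
      · refine ⟨_, sub_mem (sub_mem (f_mem h _) (ab_mem h _ hp)) (ab_mem h _ hq), ?_⟩
        change ((G.model ∅ Finset.univ).fA Λ h (Sum.inr (Sum.inl e))).1 - (abA Λ p q).1 -
          (abA Λ q p).1 = _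
        rw [e2, of_e, abA_val, abA_val]
        ring
  · have e0 : (G.model ∅ Finset.univ).om (Sum.inr (Sum.inr ⟨v, hv⟩)) =
        (Pi.single v 1, 1, 0, 0) := rfl
    rw [e0, add22]
    refine ⟨small_one hG.four v _ (Or.inl rfl), kosV_one v 4 _ (Or.inl rfl) rfl _
      (inv_le h _ _ ?_ ?_) ⟨_, f_mem h _, of_al Λ v⟩⟩
    · change ofPoly torV Λ (alP ∅ v) ∈ _
      rw [of_al]
      exact F.one v 4
    · rintro u w (⟨_, e1, -⟩ | ⟨_, e1, -⟩)
      · exact absurd e1 (by simp)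
      · exact absurd e1 (by simp)

end

end Pool.Agent.MP_ea150c_mp.H50
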