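import Pool.Agent.MP_ea150c_mp.H49.SpecV
import Pool.Agent.MP_ea150c_mp.H50.CV1
import Pool.Agent.MP_ea150c_mp.H55.CX
import Pool.Agent.MP_ea150c_mp.H86.CH0

/-! Vector fields in the extra variables. -/

namespace Pool.Agent.MP_ea150c_mp.H50

open Pool.Agent.MP_ea150c_mp.H49

set_option linter.unusedSectionVars false

noncomputable section

section Ser
variable {ι A : Type} [Fintype ι] [DecidableEq ι] [CommRing A]

theorem ysh_single (i : ι) (u : A) :
    ysh A i (Pi.single 0 u) = Pi.single (Pi.single i 1) u := by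
  funext l
  change (if l i = 0 then 0 else (Pi.single 0 u : PS ι A) (l - Pi.single i 1)) = _
  by_cases h : l = Pi.single i 1
  · subst h
    simp
  · rw [Pi.single_eq_of_ne h]
    split_ifs with h0
    · rfl
    · refine Pi.single_eq_of_ne (fun e => h (funext fun j => ?_)) _
      have := congrFun e j
      by_cases hj : j = i
      · subst hj
        simp only [Pi.sub_apply, Pi.single_eq_same, Pi.zero_apply] at this ⊢
        omega
      · simpa [Pi.single_eq_of_ne hj] using this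

theorem th_single (f : ι → A) (i : ι) (u : A) :
    thOp f i (Pi.single 0 u) = Pi.single 0 u + Pi.single (Pi.single i 1) (f i * u) := by
  funext l
  change ((l i + 1 : ℕ) : A) * (Pi.single 0 u : PS ι A) l + f i * ysh A i (Pi.single 0 u) l = _
  rw [ysh_single, Pi.add_apply]
  congr 1
  · by_cases h : l = 0
    · subst h
      simp
    · simp [Pi.single_eq_of_ne h]
  · simp [Pi.single_apply]

theorem single_sum {κ : Type} [Fintype κ] (l : ι → ℕ) (u : κ → A) :
    (Pi.single l (∑ t, u t) : PS ι A) = ∑ t, Pi.single l (u t) :=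
  map_sum (AddMonoidHom.single (fun _ : ι → ℕ => A) l) u _

variable (p : ℕ) [Fact p.Prime] [Algebra ℤ_[p] A]

theorem conj_D {A' : Type} [CommRing A'] [Algebra ℤ_[p] A'] (L : A →ₗ[ℤ_[p]] A')
    (L' : A' →ₗ[ℤ_[p]] A) (d : A' →ₗ[ℤ_[p]] A') (f : ι → A') (b : PS ι A) (l : ι → ℕ) :
    (cw p L' ∘ₗ DOp p d f ∘ₗ cw p L) b l =
      L' (d (L (b l))) + ∑ i, L' (d (f i) * L (ysh A i b l)) := by
  have h4 : ∀ i, ysh A' i (cw p L b) l = L (ysh A i b l) := by
    intro i
    change (if l i = 0 then 0 else L (b (l - Pi.single i 1))) =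
      L (if l i = 0 then 0 else b (l - Pi.single i 1))
    split_ifs
    · exact (map_zero _).symm
    · rfl
  rw [← map_sum, ← map_add]
  change L' (DOp p d f (cw p L b) l) = _
  congr 1
  simp only [DOp, LinearMap.add_apply, LinearMap.sum_apply, Pi.add_apply, Finset.sum_apply,
    LinearMap.restrictScalars_apply, LinearMap.smul_apply, Pi.smul_apply, smul_eq_mul, h4]
  rfl

theorem dLt_gen {τ : Type} [Fintype τ] (D : τ → PS ι A →ₗ[ℤ_[p]] PS ι A) (d : τ → A →ₗ[ℤ_[p]] A)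
    (f : ι → A) (hD : ∀ t u, D t (Pi.single 0 u) = Pi.single 0 (d t u) +
      ∑ i, Pi.single (Pi.single i 1) (d t (f i) * u)) (x : τ → A) (k : τ → ℤ_[p]) (n : ι → ℤ_[p])
    (g : A) : (∑ t, D t ∘ₗ mOp ℤ_[p] A (Pi.single 0 (k t • (x t * g)))) 1 +
      ∑ i, thOp f i (Pi.single 0 (n i • g)) =
      Pi.single 0 (∑ t, d t (k t • (x t * g)) + ∑ i, n i • g) +
      ∑ i, Pi.single (Pi.single i 1) (g * (∑ t, k t • (x t * d t (f i)) + n i • f i)) := by
  simp only [mOp, LinearMap.sum_apply, LinearMap.comp_apply, LinearMap.restrictScalars_apply,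
    LinearMap.toSpanSingleton_apply, one_smul, hD, th_single,
    Finset.sum_add_distrib, Pi.single_add, mul_add, Finset.mul_sum, single_sum]
  rw [Finset.sum_comm (f := fun t i => (Pi.single (Pi.single i 1)
    (d t (f i) * k t • (x t * g)) : PS ι A)), add_add_add_comm]
  congr 2
  · refine Finset.sum_congr rfl fun i _ => Finset.sum_congr rfl fun t _ => ?_
    congr 1
    simp only [mul_smul_comm]
    congr 1
    ring
  · refine Finset.sum_congr rfl fun i _ => ?_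
    rw [mul_smul_comm, mul_smul_comm, mul_comm]

end Ser

section General
variable {I τ ι : Type} [LinearOrder I] [Fintype I] [Fintype τ] [DecidableEq τ]

/-- an extra variable on a slice -/
def yS (j : I) (t : τ) : Sl τ j := ⟨Sum.inr t, by simp, by simp⟩

theorem kap_val (Λ : Type) [CommRing Λ] (j : I) (z : Tor Λ (torS τ j)) :
    (kapS Λ τ j z).1 = sj Λ τ j (inS Λ τ j z) := rfl

theorem inS_tX (Λ : Type) [CommRing Λ] (j : I) (x : Sl τ j) :
    inS Λ τ j (tX _ Λ x) = tX torV Λ x.1 := tlift_tX _ _ _ _ _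

theorem pd_kap (Λ : Type) [CommRing Λ] (j : I) (t : τ) (z : Tor Λ (torS τ j)) :
    (kapS Λ τ j (pd _ Λ (yS j t) z)).1 = pd torV Λ (Sum.inr t) (kapS Λ τ j z).1 := by
  have hc : pd torV Λ (Sum.inr t) (tXi torV Λ (Sum.inl (j, 0) : Var I τ)) = 0 :=
    H55.der_ci Λ _ (H15.leibniz _ _) j (by simp [H15.pd_tX])
  have h := H55.der_zero (torS τ j) ((sj Λ τ j).comp (inS Λ τ j))
    (((sj Λ τ j).comp (inS Λ τ j)).toLinearMap ∘ₗ pd _ Λ (yS j t) -
      pd torV Λ (Sum.inr t) ∘ₗ ((sj Λ τ j).comp (inS Λ τ j)).toLinearMap)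
    (fun a b => by
      simp only [LinearMap.sub_apply, LinearMap.comp_apply, AlgHom.toLinearMap_apply, H15.leibniz,
        map_add, map_mul]
      ring)
    (fun x => by
      simp only [LinearMap.sub_apply, LinearMap.comp_apply, AlgHom.toLinearMap_apply,
        AlgHom.comp_apply, inS_tX, sj_tX, H15.pd_tX]
      obtain ⟨⟨v, r⟩ | t', h1, h2⟩ := x
      · rw [if_neg (by simp [yS])]
        fin_cases r <;> simp [gshift, nZ, nZ', H15.leibniz, H15.pd_tX, hc]
      · by_cases e : t = t' <;> simp [gshift, yS, H15.pd_tX, e]) z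
  simpa only [LinearMap.sub_apply, LinearMap.comp_apply, AlgHom.toLinearMap_apply, sub_eq_zero,
    AlgHom.comp_apply, kap_val] using h

variable [Fintype ι] [DecidableEq ι] (M : Model I τ ι) (h : M.Good) (p : ℕ) [Fact p.Prime]

theorem d_val (g1 : G1) (j : I) (t : τ) (a : Ainv ℤ_[p] I τ) :
    ((M.frame p h).d j (yS j t) a).1 = pd torV ℤ_[p] (Sum.inr t) a.1 := by
  have e := (g1 I τ ι M h ℤ_[p] j).2.1 a
  change (kapS ℤ_[p] τ j (pd _ ℤ_[p] (yS j t) (rhoA ℤ_[p] τ j a))).1 = _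
  rw [pd_kap, e]

theorem d_indep (g1 : G1) (j k : I) (t : τ) :
    (M.frame p h).d j (yS j t) = (M.frame p h).d k (yS k t) :=
  LinearMap.ext fun a => Subtype.ext (by rw [d_val M h p g1, d_val M h p g1])

theorem D_app (g1 : G1) (j : I) (t : τ) (b : PS ι (Ainv ℤ_[p] I τ)) (l : ι → ℕ) :
    (M.frame p h).D j (yS j t) b l = (M.frame p h).d j (yS j t) (b l) +
      ∑ i, (M.frame p h).d j (yS j t) (M.fA ℤ_[p] h i) * ysh _ i b l := by
  have e := (g1 I τ ι M h ℤ_[p] j).2.1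
  have hc : tXi (torS τ j) ℤ_[p] (cS τ j) ^ 2 * tX (torS τ j) ℤ_[p] (cS τ j) ^ 2 = 1 := by
    rw [← mul_pow, mul_comm, tX_mul_tXi _ _ (by simp [torS, cS, torV]), one_pow]
  have h0 : pd (torS τ j) ℤ_[p] (yS j t) (tX _ ℤ_[p] (cS τ j)) = 0 := by
    rw [H15.pd_tX, if_neg (by simp [yS, cS])]
  have h1 : ∀ a, chi p τ j a = tX (torS τ j) ℤ_[p] (cS τ j) ^ 2 * rhoA ℤ_[p] τ j a := fun _ => rfl
  have h2 : ∀ z, chiInv p τ j z = kapS ℤ_[p] τ j (tXi (torS τ j) ℤ_[p] (cS τ j) ^ 2 * z) :=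
    fun _ => rfl
  have h3 : ∀ a, (M.frame p h).d j (yS j t) a =
    kapS ℤ_[p] τ j (pd _ ℤ_[p] (yS j t) (rhoA ℤ_[p] τ j a)) := fun _ => rfl
  have h5 : (M.frame p h).D j (yS j t) = cw p (chiInv p τ j) ∘ₗ DOp p (pd _ ℤ_[p] (yS j t))
      (fun i => rhoA ℤ_[p] τ j (M.fA ℤ_[p] h i)) ∘ₗ cw p (chi p τ j) := rfl
  rw [h5, conj_D]
  refine congrArg₂ (· + ·) ?_ ?_
  · rw [h2, h3, h1, pow_two (tX _ _ _), H15.leibniz, H15.leibniz, h0, ← pow_two, zero_mul, mul_zero,
      add_zero, zero_mul, zero_add, ← mul_assoc, hc, one_mul]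
  · refine Finset.sum_congr rfl fun i _ => ?_
    rw [h2, h3, h1, mul_left_comm, ← mul_assoc (tXi _ _ _ ^ 2), hc, one_mul, map_mul, e]

theorem D_indep (g1 : G1) (j k : I) (t : τ) :
    (M.frame p h).D j (yS j t) = (M.frame p h).D k (yS k t) :=
  LinearMap.ext fun b => funext fun l => by
    rw [D_app M h p g1, D_app M h p g1, d_indep M h p g1 j k]

theorem D_single (g1 : G1) (j : I) (t : τ) (u : Ainv ℤ_[p] I τ) :
    (M.frame p h).D j (yS j t) (Pi.single 0 u) = Pi.single 0 ((M.frame p h).d j (yS j t) u) +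
      ∑ i, Pi.single (Pi.single i 1) ((M.frame p h).d j (yS j t) (M.fA ℤ_[p] h i) * u) := by
  funext l
  rw [D_app M h p g1, Pi.add_apply, Finset.sum_apply]
  congr 1
  · by_cases e : l = 0
    · subst e
      simp
    · simp [Pi.single_eq_of_ne e]
  · refine Finset.sum_congr rfl fun i _ => ?_
    rw [ysh_single]
    simp [Pi.single_apply]

/-- an extra variable as an invariant -/
def xA (Λ : Type) [CommRing Λ] (I : Type) [LinearOrder I] [Fintype I] (t : τ) : Ainv Λ I τ :=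
  ⟨tX torV Λ (Sum.inr t), (mem_Ainv Λ _).2 fun j => sj_tX Λ j _⟩

theorem single_mem_Bl (J : Finset I) (w : Gam I) (u : Ainv ℤ_[p] I τ)
    (hu : u ∈ M.Ap ℤ_[p] J (w + M.w0)) :
    (Pi.single 0 u : PS ι (Ainv ℤ_[p] I τ)) ∈ (M.frame p h).Bl J w 0 := by
  intro l _
  by_cases e : l = 0
  · subst e
    simpa using hu
  · rw [Pi.single_eq_of_ne e]
    exact zero_mem _

/-- the vector field and the Euler part attached to an invariant -/
def zet (j : I) (k : τ → ℤ_[p]) (n : ι → ℤ_[p]) : Ainv ℤ_[p] I τ →ₗ[ℤ_[p]]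
    (Ainv ℤ_[p] I τ →ₗ[ℤ_[p]] PS ι (Ainv ℤ_[p] I τ)) × (ι → PS ι (Ainv ℤ_[p] I τ)) where
  toFun g := (∑ t, (M.frame p h).D j (yS j t) ∘ₗ
    mOp ℤ_[p] (Ainv ℤ_[p] I τ) (Pi.single 0 (k t • (xA ℤ_[p] I t * g))),
    fun i => Pi.single 0 (n i • g))
  map_add' a b := by
    refine Prod.ext (LinearMap.ext fun r => ?_) (funext fun i => ?_)
    · simp [mOp, mul_add, Pi.single_add, Finset.sum_add_distrib]
    · simp [Pi.single_add]
  map_smul' c a := by
    refine Prod.ext (LinearMap.ext fun r => ?_) (funext fun i => ?_)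
    · simp only [mOp, LinearMap.sum_apply, LinearMap.comp_apply, LinearMap.restrictScalars_apply,
        LinearMap.toSpanSingleton_apply, RingHom.id_apply, Prod.smul_fst, LinearMap.smul_apply,
        Finset.smul_sum]
      refine Finset.sum_congr rfl fun t _ => ?_
      rw [← map_smul, mul_smul_comm, smul_comm (k t) c, Pi.single_smul, smul_comm r c]
    · simp only [RingHom.id_apply, Prod.smul_snd, Pi.smul_apply]
      rw [smul_comm (n i) c, Pi.single_smul]

theorem zet_mem (g1 : G1) (j : I) (k : τ → ℤ_[p]) (n : ι → ℤ_[p]) (J : Finset I)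
    (hJ : J.Nonempty) (g : Ainv ℤ_[p] I τ) (hg : g ∈ M.Ap ℤ_[p] J M.w0) :
    zet M h p j k n g ∈ (M.frame p h).Lt J 1 := by
  obtain ⟨j', hj'⟩ := hJ
  refine ⟨Submodule.sum_mem _ fun t _ => ?_, fun i _ => ?_⟩
  · rw [D_indep M h p g1 j j']
    refine Submodule.subset_span ⟨1, le_rfl, FrameData.Word.base j' (yS j' t) 0 0 _ hj' ?_⟩
    refine single_mem_Bl M h p J _ _ (Submodule.smul_mem _ _ ?_)
    rw [zero_add]
    exact H55.Zp_mul _ M J _ _ _ _ (H55.Zp_tX _ M J _) hg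
  · exact single_mem_Bl M h p J 0 _ (Submodule.smul_mem _ _ (by rwa [zero_add]))

theorem zet_dLt (g1 : G1) (j : I) (k : τ → ℤ_[p]) (n : ι → ℤ_[p]) (g : Ainv ℤ_[p] I τ) :
    (M.frame p h).dLt (zet M h p j k n g) =
      Pi.single 0 (∑ t, (M.frame p h).d j (yS j t) (k t • (xA ℤ_[p] I t * g)) + ∑ i, n i • g) +
      ∑ i, Pi.single (Pi.single i 1) (g * (∑ t, k t • (xA ℤ_[p] I t *
        (M.frame p h).d j (yS j t) (M.fA ℤ_[p] h i)) + n i • M.fA ℤ_[p] h i)) :=
  dLt_gen p (fun t => (M.frame p h).D j (yS j t)) (fun t => (M.frame p h).d j (yS j t))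
    (M.fA ℤ_[p] h) (D_single M h p g1 j) (xA ℤ_[p] I) k n g

/-- the Euler derivation upstairs -/
def eta (I : Type) [LinearOrder I] [Fintype I] (k : τ → ℤ_[p]) (z : Zr ℤ_[p] I τ) : Zr ℤ_[p] I τ :=
  ∑ t, k t • (tX torV ℤ_[p] (Sum.inr t) * pd torV ℤ_[p] (Sum.inr t) z)

theorem eta_add (k : τ → ℤ_[p]) (a b : Zr ℤ_[p] I τ) :
    eta p I k (a + b) = eta p I k a + eta p I k b := by
  simp [eta, mul_add, Finset.sum_add_distrib]

theorem eta_mul (k : τ → ℤ_[p]) (a b : Zr ℤ_[p] I τ) :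
    eta p I k (a * b) = eta p I k a * b + a * eta p I k b := by
  simp only [eta, H15.leibniz, Finset.sum_mul, Finset.mul_sum, ← Finset.sum_add_distrib,
    Algebra.smul_def]
  exact Finset.sum_congr rfl fun t _ => by ring

theorem eta_inl (k : τ → ℤ_[p]) (y : I × Fin 4) : eta p I k (tX torV ℤ_[p] (Sum.inl y)) = 0 := by
  simp [eta, H15.pd_tX]

theorem eta_inr (k : τ → ℤ_[p]) (t : τ) :
    eta p I k (tX torV ℤ_[p] (Sum.inr t)) = k t • tX torV ℤ_[p] (Sum.inr t) := by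
  simp [eta, H15.pd_tX]

theorem eta_val (g1 : G1) (j : I) (k : τ → ℤ_[p]) (a : Ainv ℤ_[p] I τ) :
    (∑ t, k t • (xA ℤ_[p] I t * (M.frame p h).d j (yS j t) a)).1 = eta p I k a.1 := by
  rw [eta, AddSubmonoidClass.coe_finsetSum]
  refine Finset.sum_congr rfl fun t _ => ?_
  rw [← d_val M h p g1 j]
  rfl

end General

end

end Pool.Agent.MP_ea150c_mp.H50
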